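import Pool.Agent.H92.RR.Targets
import Pool.Agent.H74.MT.GEN

/-! # Row RGST of board rr_modules: genericity for `star α` -/

open MeasureTheory ProbabilityTheory Filter Topology Finset
open scoped ENNReal

namespace Pool.Agent.H68.RR

open Pool.Agent.H89.MT Pool.Agent.H92.RR Pool.Agent.H74.MT

theorem cont_mon (J : Finset ℤ) (a : ℤ → ℕ) : Continuous fun x : X => ∏ j ∈ J, (x j : ℝ) ^ a j :=
  continuous_finsetProd _ fun j _ => (continuous_subtype_val.comp (continuous_apply j)).pow _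

theorem lavg_sum {m : ℕ} (N : ℕ) (c : Fin m → ℝ) (f : Fin m → ℕ → ℝ) :
    lavg N (fun n => ∑ i, c i * f i n) = ∑ i, c i * lavg N (f i) := by
  unfold lavg
  have h2 : ∀ n : ℕ, (∑ i, c i * f i n) / (n : ℝ) = ∑ i, c i * (f i n / (n : ℝ)) := by
    intro n
    rw [Finset.sum_div]
    exact Finset.sum_congr rfl fun i _ => mul_div_assoc _ _ _
  rw [Finset.sum_congr rfl fun n _ => h2 n, Finset.sum_comm, Finset.sum_div]
  refine Finset.sum_congr rfl fun i _ => ?_
  rw [← Finset.mul_sum, mul_div_assoc]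

theorem mon_ab (u : ℕ → I1) (J : Finset ℤ) (a : ℤ → ℕ) (ha : ∀ j ∈ J, Even (a j)) (n : ℕ) :
    ∏ j ∈ J, (pt u n j : ℝ) ^ a j = ∏ j ∈ J, (pt (fun n => ab (u n)) n j : ℝ) ^ a j := by
  refine Finset.prod_congr rfl fun j hj => ?_
  have h1 : (pt (fun n => ab (u n)) n j : ℝ) = |(pt u n j : ℝ)| := by
    unfold pt
    split_ifs with h
    · rfl
    · show (0 : ℝ) = |0|
      rw [abs_zero]
  rw [h1, (ha j hj).pow_abs]

theorem pf_GST (hSHM : T_SHM) (hSWX : T_SWX) (hSTM : T_STM) : T_GST := by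
  classical
  intro u α hα hG N hN hcorr F
  have hJ0 := hSHM u N hN hcorr
  obtain ⟨hstar, hmom⟩ := hSTM α hα
  have hint : ∀ G : X → ℝ, Continuous G → Integrable G (star α) := by
    intro G hG
    obtain ⟨L, hL⟩ := isCompact_univ.exists_bound_of_continuousOn (f := G) hG.continuousOn
    exact Integrable.of_bound hG.measurable.aestronglyMeasurable L
      (Eventually.of_forall fun x => hL x (Set.mem_univ _))
  -- monomials
  have hmon : ∀ (J : Finset ℤ) (a : ℤ → ℕ),
      Tendsto (fun k => lavg (N k) fun n => ∏ j ∈ J, (pt u n j : ℝ) ^ a j) atTop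
        (𝓝 (∫ x, ∏ j ∈ J, (x j : ℝ) ^ a j ∂(star α))) := by
    intro J a
    by_cases hodd : ∃ j ∈ J, Odd (a j)
    · rw [(hmom J a).1 hodd]
      exact hJ0 J a hodd
    · push Not at hodd
      have heven : ∀ j ∈ J, Even (a j) := fun j hj => Nat.not_odd_iff_even.1 (hodd j hj)
      rw [(hmom J a).2 heven]
      have h1 := (hG ⟨fun x => ∏ j ∈ J, (x j : ℝ) ^ a j, cont_mon J a⟩).comp hN
      refine h1.congr fun k => ?_
      show lavg (N k) (fun n => ∏ j ∈ J, (pt (fun n => ab (u n)) n j : ℝ) ^ a j) = _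
      congr 1
      funext n
      exact (mon_ab u J a heven n).symm
  rw [Metric.tendsto_atTop]
  intro ε hε
  obtain ⟨m, J, a, c, hJ⟩ := hSWX F (ε / 5) (by positivity)
  obtain ⟨P, hPdef⟩ : ∃ P : X → ℝ, P = fun x => ∑ i, c i * ∏ j ∈ J i, (x j : ℝ) ^ a i j :=
    ⟨_, rfl⟩
  have hPx : ∀ x, P x = ∑ i, c i * ∏ j ∈ J i, (x j : ℝ) ^ a i j := fun x => by rw [hPdef]
  have hPc : Continuous P := by
    rw [hPdef]
    exact continuous_finsetSum _ fun i _ => continuous_const.mul (cont_mon (J i) (a i))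
  have hFP : ∀ x : X, |F x - P x| ≤ ε / 5 := fun x => by
    rw [hPx]
    exact hJ x
  -- the integral
  have hI1 : ∫ x, P x ∂(star α) = ∑ i, c i * ∫ x, ∏ j ∈ J i, (x j : ℝ) ^ a i j ∂(star α) := by
    simp only [hPx]
    rw [integral_finsetSum]
    · exact Finset.sum_congr rfl fun i _ => integral_const_mul _ _
    · intro i _
      exact (hint _ (cont_mon (J i) (a i))).const_mul _
  have hI2 : |∫ x, F x ∂(star α) - ∫ x, P x ∂(star α)| ≤ ε / 5 := by
    rw [← integral_sub (hint F F.continuous) (hint P hPc)]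
    have h1 := norm_integral_le_of_norm_le_const (μ := star α) (f := fun x => F x - P x)
      (C := ε / 5) (Eventually.of_forall fun x => by
        rw [Real.norm_eq_abs]
        exact hFP x)
    rw [Real.norm_eq_abs] at h1
    simpa using h1
  -- the averages of the polynomial
  have hb : Tendsto (fun k => lavg (N k) fun n => P (pt u n)) atTop (𝓝 (∫ x, P x ∂(star α))) := by
    rw [hI1]
    have h1 : ∀ k, lavg (N k) (fun n => P (pt u n)) =
        ∑ i, c i * lavg (N k) fun n => ∏ j ∈ J i, (pt u n j : ℝ) ^ a i j := by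
      intro k
      rw [← lavg_sum]
      congr 1
      funext n
      exact hPx _
    simp only [h1]
    exact tendsto_finsetSum _ fun i _ => (hmon (J i) (a i)).const_mul (c i)
  -- the difference
  have hdiff : ∀ M : ℕ, 0 < Real.log M →
      |lavg M (fun n => F (pt u n)) - lavg M (fun n => P (pt u n))| ≤
        ε / 5 * lavg M fun _ => 1 := by
    intro M hM
    have h1 : lavg M (fun n => F (pt u n)) - lavg M (fun n => P (pt u n)) =
        (∑ n ∈ Icc 1 M, (F (pt u n) - P (pt u n)) / n) / Real.log M := by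
      unfold lavg
      rw [← sub_div, ← Finset.sum_sub_distrib]
      congr 1
      exact Finset.sum_congr rfl fun n _ => (sub_div _ _ _).symm
    have h2 : |∑ n ∈ Icc 1 M, (F (pt u n) - P (pt u n)) / n| ≤
        ε / 5 * ∑ n ∈ Icc 1 M, (1 : ℝ) / n := by
      rw [Finset.mul_sum]
      refine (Finset.abs_sum_le_sum_abs _ _).trans (Finset.sum_le_sum fun n hn => ?_)
      have hn1 : (1 : ℝ) ≤ n := by exact_mod_cast (Finset.mem_Icc.1 hn).1
      have hn0 : (0 : ℝ) < n := by linarith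
      rw [abs_div, abs_of_pos hn0, mul_one_div]
      exact div_le_div_of_nonneg_right (hFP _) hn0.le
    rw [h1, abs_div, abs_of_pos hM]
    refine (div_le_div_of_nonneg_right h2 hM.le).trans (le_of_eq ?_)
    unfold lavg
    rw [mul_div_assoc (ε / 5)]
  have hlog : Tendsto (fun k : ℕ => Real.log (N k : ℝ)) atTop atTop :=
    (Real.tendsto_log_atTop.comp tendsto_natCast_atTop_atTop).comp hN
  have hd : Tendsto (fun k : ℕ => ε / 5 * lavg (N k) fun _ => 1) atTop (𝓝 (ε / 5 * 1)) :=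
    (tendsto_lavg_one.comp hN).const_mul _
  have hd' : ∀ᶠ k : ℕ in atTop, ε / 5 * (lavg (N k) fun _ => 1) < 2 * ε / 5 :=
    hd (Iio_mem_nhds (by linarith))
  have hb' : ∀ᶠ k : ℕ in atTop,
      |lavg (N k) (fun n => P (pt u n)) - ∫ x, P x ∂(star α)| < ε / 5 := by
    have := (Metric.tendsto_nhds.1 hb) (ε / 5) (by positivity)
    simpa only [Real.dist_eq] using this
  obtain ⟨k₀, hk₀⟩ := Filter.eventually_atTop.1 (hd'.and (hb'.and (hlog.eventually_gt_atTop 0)))
  refine ⟨k₀, fun k hk => ?_⟩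
  obtain ⟨e1, e2, e3⟩ := hk₀ k hk
  have e4 := hdiff (N k) e3
  rw [Real.dist_eq]
  have e5 : lavg (N k) (fun n => F (pt u n)) - ∫ x, F x ∂(star α) =
      (lavg (N k) (fun n => F (pt u n)) - lavg (N k) (fun n => P (pt u n))) +
        (lavg (N k) (fun n => P (pt u n)) - ∫ x, P x ∂(star α)) -
        (∫ x, F x ∂(star α) - ∫ x, P x ∂(star α)) := by ring
  rw [e5]
  refine lt_of_le_of_lt ((abs_sub _ _).trans (add_le_add (abs_add_le _ _) le_rfl)) ?_
  linarith

end Pool.Agent.H68.RR
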